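import Pool.Agent.MP_670f9a_nt.H13.Spec

/-
A square radicand forces the curve to be stable under doubling.
-/

namespace Pool.Agent.MP_670f9a_nt.H91

open Polynomial Pool.Agent.MP_670f9a_nt.H13 IntermediateField

lemma ev_eq (x : ℂ) (h : ℤ[X]) : ev x h = aeval x h := by
  rw [aeval_def, algebraMap_int_eq]
  rfl

/-- an integer polynomial of small degree does not vanish at a square root of `α`. -/
lemma eq_zero_of_sqrt {A h : ℤ[X]} {α x : ℂ} (hm : A.Monic) (hi : Irreducible A)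
    (hα : aeval α A = 0) (hx : x ^ 2 = α) (hd : h.natDegree < A.natDegree) (h0 : ev x h = 0) :
    h = 0 := by
  by_contra hne
  have inj : Function.Injective (algebraMap ℤ ℚ) := Int.cast_injective
  have hh : aeval x (h.map (algebraMap ℤ ℚ)) = 0 := by rw [aeval_map_algebraMap, ← ev_eq, h0]
  have hh0 : h.map (algebraMap ℤ ℚ) ≠ 0 := (Polynomial.map_ne_zero_iff inj).2 hne
  have ix : IsIntegral ℚ x := (show IsAlgebraic ℚ x from ⟨_, hh0, hh⟩).isIntegral
  have ia : IsIntegral ℚ α := hx ▸ ix.pow 2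
  have e1 : A.map (algebraMap ℤ ℚ) = minpoly ℚ α :=
    minpoly.eq_of_irreducible_of_monic (hm.irreducible_iff_irreducible_map_fraction_map.1 hi)
      (by rw [aeval_map_algebraMap, hα]) (hm.map _)
  have e2 : (minpoly ℚ x).natDegree ≤ h.natDegree :=
    (natDegree_le_of_dvd (minpoly.dvd ℚ x hh) hh0).trans natDegree_map_le
  have le : ℚ⟮α⟯ ≤ ℚ⟮x⟯ := adjoin_simple_le_iff.2 (hx ▸ pow_mem (mem_adjoin_simple_self ℚ x) 2)
  have := adjoin.finiteDimensional ix
  have e3 := finrank_le_of_le_right le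
  rw [adjoin.finrank ia, adjoin.finrank ix, ← e1, hm.natDegree_map] at e3
  omega

lemma natDegree_pair {P : ℤ[X][X]} {d : ℕ} (h : P.natDegree ≤ d) :
    (P * P.comp (-X)).natDegree ≤ 2 * d := by
  have h1 : (P.comp (-X)).natDegree ≤ d := by
    refine natDegree_comp_le.trans ?_
    rw [natDegree_neg, natDegree_X, mul_one]
    exact h
  have := natDegree_mul_le (p := P) (q := P.comp (-X))
  omega

lemma mult_one (hl : SLin) {σ : Multiset ℂ} (hn : σ.Nodup) {w : ℂ} (hw : w ∈ σ) (h0 : w ≠ 0) :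
    (lin σ).rootMultiplicity w⁻¹ = 1 := by
  obtain ⟨τ, rfl⟩ := Multiset.exists_cons_of_mem hw
  have hτ : w ∉ τ := (Multiset.nodup_cons.1 hn).1
  have nr : ¬ (C (-w) * lin τ).IsRoot w⁻¹ := fun k => by
    rw [IsRoot, eval_mul, eval_C, mul_eq_zero, neg_eq_zero] at k
    obtain ⟨u, hu, e⟩ := (hl.2.2.1 τ _).1 (k.resolve_left h0)
    exact hτ (((mul_inv_eq_one₀ h0).1 e) ▸ hu)
  have e : lin (w ::ₘ τ) = (X - C w⁻¹) * (C (-w) * lin τ) := by
    have : (C w : ℂ[X]) * C w⁻¹ = 1 := by rw [← C_mul, mul_inv_cancel₀ h0, C_1]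
    rw [lin, Multiset.map_cons, Multiset.prod_cons, C_neg]
    change _ * lin τ = _
    linear_combination (-lin τ) * this
  have ne : C (-w) * lin τ ≠ 0 := fun k => nr (by rw [k]; exact eval_zero)
  rw [e, rootMultiplicity_mul (mul_ne_zero (X_sub_C_ne_zero _) ne),
    rootMultiplicity_X_sub_C_self, rootMultiplicity_eq_zero nr]

theorem sdouble (hg : SGr) (hl : SLin) : SDouble := by
  intro A G L d α s hm hi hα hd hL h0 hG hW hs hc hn hsq
  obtain ⟨-, -, g3, -, g5, -, -, g8, g9⟩ := hg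
  have rep : ∀ x : ℂ, ∃ t : Multiset ℂ, t.card = d ∧ G.map (ev x) = lin t := fun x =>
    hl.1 _ d (by rw [coeff_map, h0, map_one]) (natDegree_map_le.trans hG)
  have ne : ∀ t, lin t ≠ 0 := fun t k => by simpa [k] using (hl.2.1 t).1
  obtain ⟨x₀, hx₀⟩ := IsAlgClosed.exists_pow_nat_eq α (n := 2) two_pos
  obtain ⟨s₀, c₀, e₀⟩ := rep x₀
  have eA := g8 G x₀ s₀ e₀
  have eB := g9 G x₀ s (hx₀ ▸ hs)
  obtain ⟨B, Q, hB, hQ⟩ := hsq x₀
  rw [Polynomial.map_mul, eA, eB] at hQ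
  have key : (s + s.map fun w => -w) = s₀.map (fun w => w ^ 2) + s₀.map fun w => -w ^ 2 := by
    refine Multiset.eq_of_le_of_card_le ((Multiset.le_iff_subset hn).2 fun w hw => ?_)
      (by simp [hc, c₀])
    have w0 : w ≠ 0 := by
      rintro rfl
      have z : (0 : ℂ) ∈ s := by simpa using hw
      exact Multiset.disjoint_left.1 (Multiset.nodup_add.1 hn).2.2 z (by simpa using z)
    have hQ0 : Q ≠ 0 := by
      rintro rfl
      exact mul_ne_zero (pow_ne_zero 2 hB) (mul_ne_zero (ne _) (ne _)) (by rw [hQ]; simp)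
    have m := congrArg (rootMultiplicity w⁻¹) hQ
    rw [rootMultiplicity_mul (mul_ne_zero (pow_ne_zero 2 hB) (mul_ne_zero (ne _) (ne _))),
      rootMultiplicity_mul (mul_ne_zero (ne _) (ne _)), mult_one hl hn hw w0, sq, sq,
      rootMultiplicity_mul (mul_ne_zero hB hB), rootMultiplicity_mul (mul_ne_zero hQ0 hQ0)] at m
    have rt := (rootMultiplicity_pos (ne (s₀.map (fun w => w ^ 2) + s₀.map fun w => -w ^ 2))
      (x := w⁻¹)).1 (by omega)
    obtain ⟨u, hu, e⟩ := (hl.2.2.1 _ _).1 rt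
    exact ((mul_inv_eq_one₀ w0).1 e) ▸ hu
  have eq : PA G = PB G := by
    ext1 j
    by_cases hj : j ≤ 2 * d
    · rw [← sub_eq_zero]
      refine eq_zero_of_sqrt hm hi hα hx₀ ((natDegree_sub_le _ _).trans_lt (max_lt ?_ ?_)) ?_
      · have := (g5 L d G hW).1 j
        refine lt_of_le_of_lt (Nat.le_of_mul_le_mul_left (c := d) ?_ hd) hL
        nlinarith
      · have := (g5 L d G hW).2 j
        refine lt_of_le_of_lt (Nat.le_of_mul_le_mul_left (c := d) ?_ hd) hL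
        nlinarith
      · rw [map_sub, ← coeff_map, ← coeff_map, eA, eB, key, sub_self]
    · have a : (PA G).natDegree ≤ 2 * d := natDegree_pair ((g3 G).trans hG)
      have b : (PB G).natDegree ≤ 2 * d := natDegree_pair (natDegree_map_le.trans hG)
      rw [coeff_eq_zero_of_natDegree_lt (by omega), coeff_eq_zero_of_natDegree_lt (by omega)]
  intro x z hz
  obtain ⟨s₁, -, e₁⟩ := rep x
  obtain ⟨s₂, -, e₂⟩ := rep (x ^ 2)
  obtain ⟨w, hw, e⟩ := (hl.2.2.1 _ _).1 (e₁ ▸ hz)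
  have z1 : ((PA G).map (ev x)).eval (z ^ 2) = 0 := by
    rw [g8 G x s₁ e₁]
    exact (hl.2.2.1 _ _).2 ⟨w ^ 2, Multiset.mem_add.2 (Or.inl (Multiset.mem_map_of_mem _ hw)),
      by rw [← mul_pow, e, one_pow]⟩
  rw [eq, g9 G x s₂ e₂] at z1
  obtain ⟨u, hu, f⟩ := (hl.2.2.1 _ _).1 z1
  rw [e₂]
  rcases Multiset.mem_add.1 hu with hu | hu
  · exact Or.inl ((hl.2.2.1 _ _).2 ⟨u, hu, f⟩)
  · obtain ⟨v, hv, rfl⟩ := Multiset.mem_map.1 hu
    exact Or.inr ((hl.2.2.1 _ _).2 ⟨v, hv, by rw [← f]; ring⟩)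

end Pool.Agent.MP_670f9a_nt.H91
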